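import Pool.Agent.K7.H74.AF.Stm

set_option autoImplicit false

open MeasureTheory Finset

namespace Pool.Agent.K7.H91.AF

open Pool.Agent.K7.H74.AF

open Classical in
/-- the number of `x` in the block with `τ - (x + β) ^ k ∈ B` -/
noncomputable def nn (k J : ℕ) (B : Set ℝ) (β τ : ℝ) : ℕ :=
  ((blk J).filter fun x : ℕ => τ - ((x : ℝ) + β) ^ k ∈ B).card

theorem nn_eq (k J : ℕ) (B : Set ℝ) (β τ : ℝ) [DecidablePred fun x : ℕ => τ - ((x : ℝ) + β) ^ k ∈ B] :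
    nn k J B β τ = ((blk J).filter fun x : ℕ => τ - ((x : ℝ) + β) ^ k ∈ B).card := by
  unfold nn
  congr

theorem card_blk (J : ℕ) : ((blk J).card : ℝ) ≤ (3 : ℝ) ^ J := by
  have : (blk J).card ≤ 3 ^ J := by
    unfold blk
    rw [Nat.card_Ico]
    exact Nat.sub_le _ _
  exact_mod_cast this

theorem nn_le (k J : ℕ) (B : Set ℝ) (β τ : ℝ) : (nn k J B β τ : ℝ) ≤ (3 : ℝ) ^ J := by
  classical
  refine le_trans ?_ (card_blk J)
  rw [nn_eq]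
  exact_mod_cast Finset.card_filter_le _ _

theorem vol_shift (B : Set ℝ) (c : ℝ) : volume {τ : ℝ | τ - c ∈ B} = volume B := by
  have h : {τ : ℝ | τ - c ∈ B} = (fun τ => τ + (-c)) ⁻¹' B := by
    ext τ; simp [sub_eq_add_neg]
  rw [h, measure_preimage_add_right]

theorem vol_one (k J : ℕ) (B : Set ℝ) (β : ℝ) :
    volume {τ : ℝ | 1 ≤ nn k J B β τ} ≤ ENNReal.ofReal ((3 : ℝ) ^ J) * volume B := by
  classical
  have hsub : {τ : ℝ | 1 ≤ nn k J B β τ} ⊆ ⋃ x ∈ blk J, {τ : ℝ | τ - ((x : ℝ) + β) ^ k ∈ B} := by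
    intro τ hτ
    have hτ' : 0 < ((blk J).filter fun x : ℕ => τ - ((x : ℝ) + β) ^ k ∈ B).card := by
      rw [← nn_eq]; exact hτ
    obtain ⟨x, hx⟩ := Finset.card_pos.1 hτ'
    rw [Finset.mem_filter] at hx
    rw [Set.mem_iUnion₂]
    exact ⟨x, hx.1, hx.2⟩
  calc volume {τ : ℝ | 1 ≤ nn k J B β τ}
      ≤ volume (⋃ x ∈ blk J, {τ : ℝ | τ - ((x : ℝ) + β) ^ k ∈ B}) := measure_mono hsub
    _ ≤ ∑ x ∈ blk J, volume {τ : ℝ | τ - ((x : ℝ) + β) ^ k ∈ B} :=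
        measure_biUnion_finset_le _ _
    _ = ∑ _x ∈ blk J, volume B := Finset.sum_congr rfl fun x _ => vol_shift B _
    _ = ((blk J).card : ENNReal) * volume B := by rw [Finset.sum_const, nsmul_eq_mul]
    _ ≤ ENNReal.ofReal ((3 : ℝ) ^ J) * volume B := by
        gcongr
        rw [← ENNReal.ofReal_natCast]
        exact ENNReal.ofReal_le_ofReal (card_blk J)

theorem vol_pairs (k J : ℕ) (B : Set ℝ) (hB : MeasurableSet B) (β K : ℝ) (hK : 1 < K) :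
    volume {τ : ℝ | K ≤ nn k J B β τ} ≤ ENNReal.ofReal (2 / K ^ 2) * pairs k J B β := by
  classical
  set f : ℝ → ENNReal := fun τ => ∑ x ∈ blk J, ∑ y ∈ (blk J).erase x,
    ({τ : ℝ | τ - ((x : ℝ) + β) ^ k ∈ B ∧ τ - ((y : ℝ) + β) ^ k ∈ B}).indicator (fun _ => 1) τ with hf
  have hms : ∀ c : ℝ, MeasurableSet {τ : ℝ | τ - c ∈ B} := fun c =>
    (measurable_id.sub_const c) hB
  have hm2 : ∀ x y : ℕ, MeasurableSet {τ : ℝ | τ - ((x : ℝ) + β) ^ k ∈ B ∧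
      τ - ((y : ℝ) + β) ^ k ∈ B} := fun x y => (hms _).inter (hms _)
  have hint : ∫⁻ τ, f τ = pairs k J B β := by
    rw [hf, lintegral_finsetSum _ (fun x _ => Finset.measurable_fun_sum _
      (fun y _ => measurable_const.indicator (hm2 x y)))]
    unfold pairs
    refine Finset.sum_congr rfl fun x _ => ?_
    rw [lintegral_finsetSum _ (fun y _ => measurable_const.indicator (hm2 x y))]
    refine Finset.sum_congr rfl fun y _ => ?_
    rw [lintegral_indicator_const (hm2 x y), one_mul]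
  have hfm : Measurable f := Finset.measurable_fun_sum _ (fun x _ => Finset.measurable_fun_sum _
      (fun y _ => measurable_const.indicator (hm2 x y)))
  have hval : ∀ τ, f τ = ((nn k J B β τ * (nn k J B β τ - 1) : ℕ) : ENNReal) := by
    intro τ
    set S := (blk J).filter fun x : ℕ => τ - ((x : ℝ) + β) ^ k ∈ B with hS
    have h1 : f τ = ∑ x ∈ S, ((S.card - 1 : ℕ) : ENNReal) := by
      rw [hf]
      simp only
      rw [hS, Finset.sum_filter]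
      refine Finset.sum_congr rfl fun x hx => ?_
      split_ifs with h
      · have h2 : ∀ y ∈ (blk J).erase x, ({τ : ℝ | τ - ((x : ℝ) + β) ^ k ∈ B ∧
            τ - ((y : ℝ) + β) ^ k ∈ B}).indicator (fun _ => (1 : ENNReal)) τ =
            if τ - ((y : ℝ) + β) ^ k ∈ B then 1 else 0 := by
          intro y _
          rw [Set.indicator_apply]
          simp only [Set.mem_ofPred_eq, h, true_and]
        rw [Finset.sum_congr rfl h2, ← Finset.sum_filter, Finset.sum_const, nsmul_eq_mul, mul_one]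
        congr 1
        rw [Finset.filter_erase, Finset.card_erase_of_mem]
        exact Finset.mem_filter.2 ⟨hx, h⟩
      · refine Finset.sum_eq_zero fun y _ => ?_
        rw [Set.indicator_apply, if_neg]
        rintro ⟨h3, -⟩
        exact h h3
    rw [h1, Finset.sum_const, nsmul_eq_mul]
    rw [show nn k J B β τ = S.card from nn_eq k J B β τ]
    push_cast
    rfl
  have hK2 : (0 : ℝ) < K ^ 2 / 2 := by positivity
  have hsub : {τ : ℝ | K ≤ nn k J B β τ} ⊆ {τ : ℝ | ENNReal.ofReal (K ^ 2 / 2) ≤ f τ} := by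
    intro τ hτ
    have hτ' : K ≤ (nn k J B β τ : ℝ) := hτ
    show ENNReal.ofReal (K ^ 2 / 2) ≤ f τ
    rw [hval τ, ← ENNReal.ofReal_natCast]
    apply ENNReal.ofReal_le_ofReal
    have h2 : 2 ≤ nn k J B β τ := by
      have : (1 : ℝ) < nn k J B β τ := lt_of_lt_of_le hK hτ'
      exact_mod_cast this
    have h3 : (2 : ℝ) ≤ nn k J B β τ := by exact_mod_cast h2
    rw [Nat.cast_mul, Nat.cast_sub (by omega), Nat.cast_one]
    nlinarith [mul_le_mul hτ' hτ' (by linarith) (by linarith)]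
  have hmk := mul_meas_ge_le_lintegral (μ := volume) hfm (ENNReal.ofReal (K ^ 2 / 2))
  rw [hint] at hmk
  calc volume {τ : ℝ | K ≤ nn k J B β τ}
      ≤ volume {τ : ℝ | ENNReal.ofReal (K ^ 2 / 2) ≤ f τ} := measure_mono hsub
    _ = ENNReal.ofReal (2 / K ^ 2) * (ENNReal.ofReal (K ^ 2 / 2) *
          volume {τ : ℝ | ENNReal.ofReal (K ^ 2 / 2) ≤ f τ}) := by
        rw [← mul_assoc, ← ENNReal.ofReal_mul (by positivity)]
        have : 2 / K ^ 2 * (K ^ 2 / 2) = 1 := by field_simp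
        rw [this, ENNReal.ofReal_one, one_mul]
    _ ≤ ENNReal.ofReal (2 / K ^ 2) * pairs k J B β := by gcongr

/-- the binary levels -/
theorem levels (c : ℕ) : ∀ M : ℕ, c < 2 ^ (M + 1) →
    c ≤ ∑ l ∈ range (M + 1), if 2 ^ l ≤ c then 2 ^ l else 0 := by
  intro M
  induction M generalizing c with
  | zero =>
    intro h
    rw [Finset.sum_range_one]
    have : c = 0 ∨ c = 1 := by omega
    rcases this with rfl | rfl <;> simp
  | succ M ih =>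
    intro h
    rw [Finset.sum_range_succ]
    by_cases h2 : 2 ^ (M + 1) ≤ c
    · rw [if_pos h2]
      have h3 : c - 2 ^ (M + 1) < 2 ^ (M + 1) := by
        have : 2 ^ (M + 1 + 1) = 2 ^ (M + 1) + 2 ^ (M + 1) := by ring
        omega
      have h4 := ih (c - 2 ^ (M + 1)) h3
      have h5 : (∑ l ∈ range (M + 1), if 2 ^ l ≤ c - 2 ^ (M + 1) then 2 ^ l else 0) ≤
          ∑ l ∈ range (M + 1), if 2 ^ l ≤ c then 2 ^ l else 0 := by
        apply Finset.sum_le_sum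
        intro l _
        split_ifs with h6 h7
        · exact le_rfl
        · exact absurd (le_trans h6 (Nat.sub_le _ _)) h7
        · exact Nat.zero_le _
        · exact le_rfl
      omega
    · rw [if_neg h2, add_zero]
      exact ih c (by omega)

/-- one value of `τ` in the level set of the longer box lies in one of the sets `E_l` -/
theorem level_mem {k t : ℕ} {ξ : Fin t → ℝ} {β : ℝ} {b : Fin t → ℕ} {J l' M : ℕ} (hS : StSplit)
    (hM : ((3 : ℝ) ^ mx b) ^ t < 2 ^ (M + 1)) {τ : ℝ}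
    (hτ : τ ∈ Lv k (Fin.snoc ξ β : Fin (t + 1) → ℝ) (Fin.snoc b J : Fin (t + 1) → ℕ) l') :
    ∃ l ∈ range (M + 1), (2 : ℝ) ^ l' ≤ (M + 1) * 2 ^ l * nn k J (Lv k ξ b l) β τ := by
  classical
  by_contra hcon
  push Not at hcon
  have hτ' : (2 : ℝ) ^ l' ≤ cn k (Fin.snoc ξ β : Fin (t + 1) → ℝ) (Fin.snoc b J : Fin (t + 1) → ℕ) 1 τ := hτ
  rw [hS.1] at hτ'
  have h1 : ∀ x : ℕ, cn k ξ b 1 (τ - ((x : ℝ) + β) ^ k) ≤
      ∑ l ∈ range (M + 1), if 2 ^ l ≤ cn k ξ b 1 (τ - ((x : ℝ) + β) ^ k) then 2 ^ l else 0 := by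
    intro x
    apply levels
    have h2 := hS.2.1 k t ξ b 1 (τ - ((x : ℝ) + β) ^ k)
    have h3 := lt_of_le_of_lt h2 hM
    exact_mod_cast h3
  have h2 : ∑ x ∈ blk J, cn k ξ b 1 (τ - ((x : ℝ) + β) ^ k) ≤
      ∑ l ∈ range (M + 1), 2 ^ l * nn k J (Lv k ξ b l) β τ := by
    refine le_trans (Finset.sum_le_sum fun x _ => h1 x) ?_
    rw [Finset.sum_comm]
    apply le_of_eq
    refine Finset.sum_congr rfl fun l _ => ?_
    rw [nn_eq, ← Finset.sum_filter, Finset.sum_const, smul_eq_mul, mul_comm]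
    congr 2
    apply Finset.filter_congr
    intro x _
    show _ ↔ (2 : ℝ) ^ l ≤ cn k ξ b 1 (τ - ((x : ℝ) + β) ^ k)
    norm_cast
  have h3 : (∑ l ∈ range (M + 1), (2 : ℝ) ^ l * nn k J (Lv k ξ b l) β τ) <
      ∑ _l ∈ range (M + 1), (2 : ℝ) ^ l' / (M + 1) := by
    apply Finset.sum_lt_sum_of_nonempty ⟨0, by simp⟩
    intro l hl
    have hM1 : (0 : ℝ) < M + 1 := by positivity
    rw [lt_div_iff₀ hM1]
    have := hcon l hl
    linarith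
  rw [Finset.sum_const, Finset.card_range, nsmul_eq_mul] at h3
  have h4 : ((M + 1 : ℕ) : ℝ) * ((2 : ℝ) ^ l' / (M + 1)) = 2 ^ l' := by
    push_cast
    have hM1 : (M + 1 : ℝ) ≠ 0 := by positivity
    field_simp
  rw [h4] at h3
  have h5 : ((∑ x ∈ blk J, cn k ξ b 1 (τ - ((x : ℝ) + β) ^ k) : ℕ) : ℝ) ≤
      ∑ l ∈ range (M + 1), (2 : ℝ) ^ l * nn k J (Lv k ξ b l) β τ := by
    exact_mod_cast h2
  linarith

/-- polynomial against exponential -/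
theorem poly_exp (t p : ℕ) (hp : 1 ≤ p) (ε : ℝ) (hε : 0 < ε) : ∃ D : ℝ, 1 ≤ D ∧ ∀ J : ℕ,
    ((2 * t * J + 1 : ℕ) : ℝ) ^ p ≤ D * ((3 : ℝ) ^ J) ^ ε := by
  have hl3 : 0 < Real.log 3 := Real.log_pos (by norm_num)
  have hp' : (0 : ℝ) < p := by exact_mod_cast hp
  set c : ℝ := 2 * t * (p / (ε * Real.log 3)) + 1 with hc
  have hc1 : 1 ≤ c := by
    have : 0 ≤ 2 * t * (p / (ε * Real.log 3)) := by positivity
    linarith
  refine ⟨c ^ p, one_le_pow₀ hc1, fun J => ?_⟩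
  set y : ℝ := ε * J * Real.log 3 / p with hy
  have hy0 : 0 ≤ y := by positivity
  have h1 : y ≤ Real.exp y := by linarith [Real.add_one_le_exp y]
  have h2 : 1 ≤ Real.exp y := Real.one_le_exp hy0
  have h3 : (J : ℝ) = p / (ε * Real.log 3) * y := by
    rw [hy]; field_simp
  have h4 : ((2 * t * J + 1 : ℕ) : ℝ) ≤ c * Real.exp y := by
    push_cast
    rw [h3, hc]
    have h5 : 0 ≤ 2 * t * (p / (ε * Real.log 3)) := by positivity
    nlinarith [mul_le_mul_of_nonneg_left h1 h5]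
  have h6 : Real.exp y ^ p = ((3 : ℝ) ^ J) ^ ε := by
    rw [← Real.exp_nat_mul, Real.rpow_def_of_pos (by positivity), Real.log_pow, hy]
    congr 1
    field_simp
  calc ((2 * t * J + 1 : ℕ) : ℝ) ^ p ≤ (c * Real.exp y) ^ p := by
        apply pow_le_pow_left₀ (by positivity) h4
    _ = c ^ p * ((3 : ℝ) ^ J) ^ ε := by rw [mul_pow, h6]

/-- the inequality of case B -/
theorem ineqB {Z W X Y M1 : ℝ} {p : ℕ} (hZ : 1 ≤ Z) (hW : 0 < W) (hX : 0 < X) (hY : 0 < Y)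
    (_hM1 : 1 ≤ M1) (hp : 1 ≤ p) (hXY : X ≤ M1 * Y) :
    Z * (W / Y) ^ p ≤ M1 ^ p * (Z * W / X) ^ p := by
  have h0 : Z ≤ Z ^ p := le_self_pow₀ hZ (by omega)
  have h1 : W / Y ≤ M1 * W / X := by
    rw [div_le_div_iff₀ hY hX]
    nlinarith
  calc Z * (W / Y) ^ p ≤ Z ^ p * (M1 * W / X) ^ p := by gcongr
    _ = M1 ^ p * (Z * W / X) ^ p := by
        rw [← mul_pow, ← mul_pow]
        congr 1
        ring

/-- the inequality of case A -/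
theorem ineqA {Z W X Y M1 : ℝ} {q : ℕ} (hZ : 1 ≤ Z) (hW : 0 < W) (hX : 0 < X) (hY : 0 < Y)
    (_hM1 : 1 ≤ M1) (hq : 1 ≤ q) (hXY : X ≤ M1 * Y * Z) :
    Z ^ 2 * (M1 * Y / X) ^ 2 * ((W / Y) ^ q) ^ 2 ≤ M1 ^ (2 * q) * (Z * W / X) ^ (2 * q) := by
  have h1 : 1 ≤ M1 * Y * Z / X := by rwa [one_le_div hX]
  have h2 : (M1 * Y * Z / X) ^ 2 ≤ (M1 * Y * Z / X) ^ (2 * q) :=
    pow_le_pow_right₀ h1 (by omega)
  calc Z ^ 2 * (M1 * Y / X) ^ 2 * ((W / Y) ^ q) ^ 2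
      = (M1 * Y * Z / X) ^ 2 * (W / Y) ^ (2 * q) := by
        rw [← pow_mul, mul_comm q 2]
        ring
    _ ≤ (M1 * Y * Z / X) ^ (2 * q) * (W / Y) ^ (2 * q) := by gcongr
    _ = M1 ^ (2 * q) * (Z * W / X) ^ (2 * q) := by
        rw [← mul_pow, ← mul_pow]
        congr 1
        field_simp

/-- case A -/
theorem volA {k t : ℕ} {ξ : Fin t → ℝ} {β δ : ℝ} {b : Fin t → ℕ} {J l i : ℕ} {X M1 Ci CP : ℝ}
    (hM : StMeas) (hδ : 0 < δ) (hCi : 0 ≤ Ci) (hCP : 0 ≤ CP) (hX : 0 < X) (hM1 : 1 ≤ M1)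
    (hY : (2 : ℝ) ^ l ≤ ((3 : ℝ) ^ J) ^ (2 * t)) (hXY : M1 * 2 ^ l < X) (hXYZ : X ≤ M1 * 2 ^ l * 3 ^ J)
    (hP : pairs k J (Lv k ξ b l) β ≤
      ENNReal.ofReal (CP * ((3 : ℝ) ^ J * 2 ^ l) ^ δ * ((3 : ℝ) ^ J) ^ 2 / ((3 : ℝ) ^ J) ^ k) *
        (volume (Lv k ξ b l)) ^ 2)
    (hV : volume (Lv k ξ b l) ≤
        ENNReal.ofReal (Ci * ((3 : ℝ) ^ J) ^ ((k : ℝ) + δ) * (((3 : ℝ) ^ J) ^ ((t : ℝ) - k) / 2 ^ l) ^ (2 ^ i))) :
    volume {τ : ℝ | X ≤ M1 * 2 ^ l * nn k J (Lv k ξ b l) β τ} ≤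
      ENNReal.ofReal (2 * CP * Ci ^ 2 * M1 ^ (2 ^ (i + 1)) * ((3 : ℝ) ^ J) ^ ((2 * t + 3) * δ) * ((3 : ℝ) ^ J) ^ k *
        (3 ^ J * ((3 : ℝ) ^ J) ^ ((t : ℝ) - k) / X) ^ (2 ^ (i + 1))) := by
  have hZ1 : (1 : ℝ) ≤ 3 ^ J := one_le_pow₀ (by norm_num)
  have hY0 : (0 : ℝ) < 2 ^ l := by positivity
  generalize (3 : ℝ) ^ J = Z at *
  have hLv := hM.2.2.1 k t ξ b l
  generalize Lv k ξ b l = B at *
  generalize (2 : ℝ) ^ l = Y at *
  have hZ0 : 0 < Z := by linarith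
  have hW : 0 < Z ^ ((t : ℝ) - k) := Real.rpow_pos_of_pos hZ0 _
  generalize Z ^ ((t : ℝ) - k) = W at *
  have hMY : 0 < M1 * Y := by positivity
  have hK : 1 < X / (M1 * Y) := by rwa [one_lt_div hMY]
  have hset : {τ : ℝ | X ≤ M1 * Y * nn k J B β τ} = {τ : ℝ | X / (M1 * Y) ≤ nn k J B β τ} := by
    ext τ
    show X ≤ M1 * Y * nn k J B β τ ↔ X / (M1 * Y) ≤ nn k J B β τ
    rw [div_le_iff₀' hMY]
  have hq : 1 ≤ 2 ^ i := Nat.one_le_two_pow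
  have hreal : 2 / (X / (M1 * Y)) ^ 2 * (CP * (Z * Y) ^ δ * Z ^ 2 / Z ^ k *
      (Ci * Z ^ ((k : ℝ) + δ) * (W / Y) ^ (2 ^ i)) ^ 2) ≤
      2 * CP * Ci ^ 2 * M1 ^ (2 ^ (i + 1)) * Z ^ ((2 * t + 3) * δ) * Z ^ k * (Z * W / X) ^ (2 ^ (i + 1)) := by
    have hA := ineqA (q := 2 ^ i) hZ1 hW hX hY0 hM1 hq hXYZ
    have h2 : (2 : ℕ) ^ (i + 1) = 2 * 2 ^ i := by ring
    rw [h2]
    have h3 : Z ^ ((k : ℝ) + δ) = Z ^ k * Z ^ δ := by
      rw [Real.rpow_add hZ0, Real.rpow_natCast]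
    have h4 : (Z * Y) ^ δ * (Z ^ δ) ^ 2 ≤ Z ^ ((2 * t + 3) * δ) := by
      have h5 : (Z * Y) ^ δ ≤ (Z ^ (2 * t + 1)) ^ δ := by
        apply Real.rpow_le_rpow (by positivity) _ hδ.le
        rw [pow_succ, mul_comm]
        gcongr
      refine le_trans (mul_le_mul_of_nonneg_right h5 (by positivity)) (le_of_eq ?_)
      rw [← Real.rpow_natCast Z (2 * t + 1), ← Real.rpow_mul hZ0.le, ← Real.rpow_natCast (Z ^ δ) 2,
        ← Real.rpow_mul hZ0.le, ← Real.rpow_add hZ0]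
      congr 1
      push_cast
      ring
    calc 2 / (X / (M1 * Y)) ^ 2 * (CP * (Z * Y) ^ δ * Z ^ 2 / Z ^ k *
          (Ci * Z ^ ((k : ℝ) + δ) * (W / Y) ^ (2 ^ i)) ^ 2)
        = 2 * CP * Ci ^ 2 * Z ^ k * ((Z * Y) ^ δ * (Z ^ δ) ^ 2) *
          (Z ^ 2 * (M1 * Y / X) ^ 2 * ((W / Y) ^ (2 ^ i)) ^ 2) := by
          rw [h3]
          field_simp
      _ ≤ 2 * CP * Ci ^ 2 * Z ^ k * Z ^ ((2 * t + 3) * δ) *
          (M1 ^ (2 * 2 ^ i) * (Z * W / X) ^ (2 * 2 ^ i)) := by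
          apply mul_le_mul _ hA (by positivity) (by positivity)
          apply mul_le_mul_of_nonneg_left h4 (by positivity)
      _ = _ := by ring
  rw [hset]
  calc volume {τ : ℝ | X / (M1 * Y) ≤ nn k J B β τ}
      ≤ ENNReal.ofReal (2 / (X / (M1 * Y)) ^ 2) * pairs k J B β := vol_pairs k J B hLv β _ hK
    _ ≤ ENNReal.ofReal (2 / (X / (M1 * Y)) ^ 2) * (ENNReal.ofReal (CP * (Z * Y) ^ δ * Z ^ 2 / Z ^ k) *
          (ENNReal.ofReal (Ci * Z ^ ((k : ℝ) + δ) * (W / Y) ^ (2 ^ i))) ^ 2) := by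
        gcongr
        refine le_trans hP ?_
        gcongr
    _ = ENNReal.ofReal (2 / (X / (M1 * Y)) ^ 2 * (CP * (Z * Y) ^ δ * Z ^ 2 / Z ^ k *
          (Ci * Z ^ ((k : ℝ) + δ) * (W / Y) ^ (2 ^ i)) ^ 2)) := by
        rw [← ENNReal.ofReal_pow (by positivity), ← ENNReal.ofReal_mul (by positivity),
          ← ENNReal.ofReal_mul (by positivity)]
    _ ≤ _ := ENNReal.ofReal_le_ofReal hreal

/-- case B -/
theorem volB {k t : ℕ} {ξ : Fin t → ℝ} {β δ : ℝ} {b : Fin t → ℕ} {J l i : ℕ} {X M1 Cj : ℝ}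
    (hCj : 0 ≤ Cj) (hX : 0 < X) (hM1 : 1 ≤ M1) (hXY : X ≤ M1 * 2 ^ l)
    (hV : volume (Lv k ξ b l) ≤ ENNReal.ofReal (Cj * ((3 : ℝ) ^ J) ^ ((k : ℝ) + δ) *
      (((3 : ℝ) ^ J) ^ ((t : ℝ) - k) / 2 ^ l) ^ (2 ^ (i + 1)))) :
    volume {τ : ℝ | X ≤ M1 * 2 ^ l * nn k J (Lv k ξ b l) β τ} ≤
      ENNReal.ofReal (Cj * M1 ^ (2 ^ (i + 1)) * ((3 : ℝ) ^ J) ^ δ * ((3 : ℝ) ^ J) ^ k *
        (3 ^ J * ((3 : ℝ) ^ J) ^ ((t : ℝ) - k) / X) ^ (2 ^ (i + 1))) := by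
  have hsub : {τ : ℝ | X ≤ M1 * 2 ^ l * nn k J (Lv k ξ b l) β τ} ⊆ {τ : ℝ | 1 ≤ nn k J (Lv k ξ b l) β τ} := by
    intro τ hτ
    have hτ' : X ≤ M1 * 2 ^ l * nn k J (Lv k ξ b l) β τ := hτ
    show 1 ≤ nn k J (Lv k ξ b l) β τ
    by_contra h
    have h0 : nn k J (Lv k ξ b l) β τ = 0 := by omega
    rw [h0] at hτ'
    simp at hτ'
    linarith
  have hZ1 : (1 : ℝ) ≤ 3 ^ J := one_le_pow₀ (by norm_num)
  have hY0 : (0 : ℝ) < 2 ^ l := by positivity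
  have hone := vol_one k J (Lv k ξ b l) β
  generalize (3 : ℝ) ^ J = Z at *
  generalize Lv k ξ b l = B at *
  generalize (2 : ℝ) ^ l = Y at *
  have hZ0 : 0 < Z := by linarith
  have hW : 0 < Z ^ ((t : ℝ) - k) := Real.rpow_pos_of_pos hZ0 _
  generalize Z ^ ((t : ℝ) - k) = W at *
  have hp : 1 ≤ 2 ^ (i + 1) := Nat.one_le_two_pow
  calc volume {τ : ℝ | X ≤ M1 * Y * nn k J B β τ} ≤ volume {τ : ℝ | 1 ≤ nn k J B β τ} := measure_mono hsub
    _ ≤ ENNReal.ofReal Z * volume B := hone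
    _ ≤ ENNReal.ofReal Z * ENNReal.ofReal (Cj * Z ^ ((k : ℝ) + δ) * (W / Y) ^ (2 ^ (i + 1))) := by gcongr
    _ = ENNReal.ofReal (Cj * Z ^ δ * Z ^ k * (Z * (W / Y) ^ (2 ^ (i + 1)))) := by
        rw [← ENNReal.ofReal_mul hZ0.le]
        congr 1
        rw [Real.rpow_add hZ0, Real.rpow_natCast]
        ring
    _ ≤ ENNReal.ofReal (Cj * M1 ^ (2 ^ (i + 1)) * Z ^ δ * Z ^ k * (Z * W / X) ^ (2 ^ (i + 1))) := by
        apply ENNReal.ofReal_le_ofReal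
        have hB := ineqB (p := 2 ^ (i + 1)) hZ1 hW hX hY0 hM1 hp hXY
        calc Cj * Z ^ δ * Z ^ k * (Z * (W / Y) ^ (2 ^ (i + 1)))
            ≤ Cj * Z ^ δ * Z ^ k * (M1 ^ (2 ^ (i + 1)) * (Z * W / X) ^ (2 ^ (i + 1))) := by
              apply mul_le_mul_of_nonneg_left hB (by positivity)
          _ = _ := by ring

theorem snoc_box {t : ℕ} (b : Fin (t + 1) → ℕ) (hb : Monotone b) : ∃ (b' : Fin t → ℕ) (J : ℕ),
    b = (Fin.snoc b' J : Fin (t + 1) → ℕ) ∧ mx b = J ∧ Monotone b' ∧ mx b' ≤ J := by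
  refine ⟨fun i => b i.castSucc, b (Fin.last t), ?_, ?_, ?_, ?_⟩
  · exact (Fin.snoc_init_self b).symm
  · apply le_antisymm
    · exact Finset.sup_le fun i _ => hb (Fin.le_last i)
    · exact Finset.le_sup (f := b) (Finset.mem_univ _)
  · intro i j hij
    exact hb (by simpa using hij)
  · exact Finset.sup_le fun i _ => hb (Fin.le_last _)

/-- the condition on `l` -/
theorem cond {Z X M1 D C Cx δ δ' : ℝ} {i p : ℕ} (hZ1 : 1 ≤ Z) (hM1 : 1 ≤ M1)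
    (hCx : 0 ≤ Cx) (hp : 1 ≤ p) (hDC : D * Cx ≤ C) (hDM : M1 ^ p ≤ D * Z ^ (δ' / 2)) (hδ : δ ≤ δ' / 2)
    (hl : C * Z ^ (((i + 1 : ℕ) : ℝ) - 1 + δ') ≤ X) : Cx * Z ^ ((i : ℝ) + δ) * M1 ≤ X := by
  have hZ0 : 0 < Z := by linarith
  refine le_trans ?_ hl
  have h1 : M1 ≤ M1 ^ p := le_self_pow₀ hM1 (by omega)
  have h2 : Z ^ ((i : ℝ) + δ) ≤ Z ^ ((i : ℝ) + δ' / 2) :=
    Real.rpow_le_rpow_of_exponent_le hZ1 (by linarith)
  calc Cx * Z ^ ((i : ℝ) + δ) * M1 ≤ Cx * Z ^ ((i : ℝ) + δ' / 2) * (D * Z ^ (δ' / 2)) := by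
        apply mul_le_mul _ (h1.trans hDM) (by linarith) (by positivity)
        gcongr
    _ = (D * Cx) * (Z ^ ((i : ℝ) + δ' / 2) * Z ^ (δ' / 2)) := by ring
    _ ≤ C * (Z ^ ((i : ℝ) + δ' / 2) * Z ^ (δ' / 2)) := by gcongr
    _ = C * Z ^ (((i + 1 : ℕ) : ℝ) - 1 + δ') := by
        rw [← Real.rpow_add hZ0]
        congr 2
        push_cast
        ring

/-- the step for the level sets -/
theorem sstep (hS : StSplit) (hM : StMeas) : StSstep := by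
  intro k t i δ' _hk hδ' hδ'1
  obtain ⟨D, hD1, hD⟩ := poly_exp t (2 ^ (i + 1) + 1) (Nat.le_add_left 1 _) (δ' / 2) (by positivity)
  have h46 : (0 : ℝ) < 4 * t + 6 := by positivity
  have hδ0 : 0 < δ' / (4 * t + 6) := by positivity
  have hδ2 : (2 * t + 3) * (δ' / (4 * t + 6)) = δ' / 2 := by
    field_simp
    ring
  have hδle : δ' / (4 * t + 6) ≤ δ' / 2 := by
    rw [← hδ2]
    have ht : (0 : ℝ) ≤ t := Nat.cast_nonneg t
    nlinarith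
  refine ⟨δ' / (4 * t + 6), hδ0, by linarith, ?_⟩
  generalize δ' / (4 * t + 6) = δ at *
  intro ξ β _ _ hSi hSj hPL
  obtain ⟨Ci, hCi⟩ := hSi
  obtain ⟨Cj, hCj⟩ := hSj
  obtain ⟨CP, hCP0, hCP⟩ := hPL
  set C : ℕ := ⌈D * (Ci + Cj + 2 * CP * Ci ^ 2)⌉₊ with hCdef
  have hC : D * (Ci + Cj + 2 * CP * Ci ^ 2) ≤ C := Nat.le_ceil _
  refine ⟨C, ?_⟩
  intro b hb l' hl'
  obtain ⟨b', J, rfl, hmx, hb', hmx'⟩ := snoc_box b hb
  rw [hmx] at hl' ⊢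
  have hl := hl'.resolve_left (by omega)
  have hZ1 : (1 : ℝ) ≤ 3 ^ J := one_le_pow₀ (by norm_num)
  have hZ0 : (0 : ℝ) < 3 ^ J := by positivity
  have hX0 : (0 : ℝ) < 2 ^ l' := by positivity
  have hCi0 : (0 : ℝ) ≤ Ci := Nat.cast_nonneg _
  have hCj0 : (0 : ℝ) ≤ Cj := Nat.cast_nonneg _
  have hM1 : (1 : ℝ) ≤ ((2 * t * J + 1 : ℕ) : ℝ) := by
    push_cast
    have : (0 : ℝ) ≤ 2 * t * J := by positivity
    linarith
  have hDJ := hD J
  -- the size of `M`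
  have hsize : ((3 : ℝ) ^ mx b') ^ t < 2 ^ (2 * t * J + 1) := by
    calc ((3 : ℝ) ^ mx b') ^ t ≤ ((3 : ℝ) ^ J) ^ t := by
          gcongr
          norm_num
      _ ≤ ((4 : ℝ) ^ J) ^ t := by gcongr; norm_num
      _ = 2 ^ (2 * t * J) := by
          rw [show (4 : ℝ) = 2 ^ 2 by norm_num, ← pow_mul, ← pow_mul]
          congr 1
          ring
      _ < 2 ^ (2 * t * J + 1) := pow_lt_pow_right₀ (by norm_num) (by omega)
  have hYle : ∀ l ∈ range (2 * t * J + 1), (2 : ℝ) ^ l ≤ ((3 : ℝ) ^ J) ^ (2 * t) := by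
    intro l hl
    have : l ≤ 2 * t * J := by
      have := Finset.mem_range.1 hl
      omega
    calc (2 : ℝ) ^ l ≤ 2 ^ (2 * t * J) := pow_le_pow_right₀ (by norm_num) this
      _ ≤ 3 ^ (2 * t * J) := by gcongr; norm_num
      _ = ((3 : ℝ) ^ J) ^ (2 * t) := by
          rw [← pow_mul]
          congr 1
          ring
  -- the two constants
  have hc1 : D * (Ci : ℝ) ≤ C := by
    refine le_trans ?_ hC
    have : 0 ≤ D * (Cj + 2 * CP * (Ci : ℝ) ^ 2) := by positivity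
    linarith
  have hc2 : D * (Cj : ℝ) ≤ C := by
    refine le_trans ?_ hC
    have : 0 ≤ D * (Ci + 2 * CP * (Ci : ℝ) ^ 2) := by positivity
    linarith
  have hcondi := cond (Z := 3 ^ J) (i := i) (p := 2 ^ (i + 1) + 1) hZ1 hM1 hCi0 (Nat.le_add_left 1 _) hc1 hDJ hδle hl
  have hcondj := cond (Z := 3 ^ J) (i := i) (p := 2 ^ (i + 1) + 1) hZ1 hM1 hCj0 (Nat.le_add_left 1 _) hc2 hDJ hδle hl
  set M1 : ℝ := ((2 * t * J + 1 : ℕ) : ℝ) with hM1def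
  have hM10 : 0 < M1 := by linarith
  -- the bound for one `l`
  have hone : ∀ l ∈ range (2 * t * J + 1),
      volume {τ : ℝ | (2 : ℝ) ^ l' ≤ M1 * 2 ^ l * nn k J (Lv k ξ b' l) β τ} ≤
      ENNReal.ofReal ((Cj + 2 * CP * Ci ^ 2) * M1 ^ (2 ^ (i + 1)) * ((3 : ℝ) ^ J) ^ (δ' / 2) * ((3 : ℝ) ^ J) ^ k *
        (3 ^ J * ((3 : ℝ) ^ J) ^ ((t : ℝ) - k) / 2 ^ l') ^ (2 ^ (i + 1))) := by
    intro l hlr
    have hY0 : (0 : ℝ) < 2 ^ l := by positivity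
    rcases le_or_gt ((2 : ℝ) ^ l') (M1 * 2 ^ l) with hcase | hcase
    · -- case B
      have hV := hCj b' hb' J l hmx' (Or.inr (by
        have h1 : Cj * ((3 : ℝ) ^ J) ^ ((i : ℝ) + δ) * M1 ≤ 2 ^ l * M1 := by
          refine hcondj.trans (hcase.trans (le_of_eq (mul_comm _ _)))
        have h2 := le_of_mul_le_mul_right h1 hM10
        have h3 : ((i + 1 : ℕ) : ℝ) - 1 + δ = (i : ℝ) + δ := by push_cast; ring
        rw [h3]
        exact h2))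
      refine (volB (β := β) hCj0 hX0 hM1 hcase hV).trans (ENNReal.ofReal_le_ofReal ?_)
      have hW : (0 : ℝ) < (3 : ℝ) ^ J * ((3 : ℝ) ^ J) ^ ((t : ℝ) - k) / 2 ^ l' := by positivity
      have h5 : ((3 : ℝ) ^ J) ^ δ ≤ ((3 : ℝ) ^ J) ^ (δ' / 2) :=
        Real.rpow_le_rpow_of_exponent_le hZ1 hδle
      have h6 : (Cj : ℝ) ≤ Cj + 2 * CP * Ci ^ 2 := by
        have : 0 ≤ 2 * CP * (Ci : ℝ) ^ 2 := by positivity
        linarith
      gcongr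
    · -- case A
      rcases le_or_gt ((2 : ℝ) ^ l') (M1 * 2 ^ l * 3 ^ J) with hc | hc
      · have hV := hCi b' hb' J l hmx' (by
          rcases Nat.eq_zero_or_pos i with h0 | h0
          · exact Or.inl h0
          · right
            have h1 : Ci * ((3 : ℝ) ^ J) ^ ((i : ℝ) - 1 + δ) * (3 ^ J * M1) ≤ 2 ^ l * (3 ^ J * M1) := by
              have h2 : Ci * ((3 : ℝ) ^ J) ^ ((i : ℝ) - 1 + δ) * (3 ^ J * M1) =
                  Ci * ((3 : ℝ) ^ J) ^ ((i : ℝ) + δ) * M1 := by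
                have h3 : ((3 : ℝ) ^ J) ^ ((i : ℝ) + δ) = ((3 : ℝ) ^ J) ^ ((i : ℝ) - 1 + δ) * 3 ^ J := by
                  have h4 : (i : ℝ) + δ = ((i : ℝ) - 1 + δ) + 1 := by ring
                  rw [h4, Real.rpow_add hZ0, Real.rpow_one]
                rw [h3]
                ring
              rw [h2]
              refine hcondi.trans (hc.trans (le_of_eq ?_))
              ring
            exact le_of_mul_le_mul_right h1 (by positivity))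
        refine (volA (β := β) (i := i) hM hδ0 hCi0 hCP0 hX0 hM1 (hYle l hlr) hcase hc
          (hCP b' J l hmx') hV).trans (ENNReal.ofReal_le_ofReal ?_)
        rw [hδ2]
        have h6 : 2 * CP * (Ci : ℝ) ^ 2 ≤ Cj + 2 * CP * Ci ^ 2 := by linarith
        gcongr
      · have hemp : {τ : ℝ | (2 : ℝ) ^ l' ≤ M1 * 2 ^ l * nn k J (Lv k ξ b' l) β τ} = ∅ := by
          apply Set.eq_empty_of_forall_notMem
          intro τ hτ
          have hτ' : (2 : ℝ) ^ l' ≤ M1 * 2 ^ l * nn k J (Lv k ξ b' l) β τ := hτ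
          have h7 := nn_le k J (Lv k ξ b' l) β τ
          have h8 : M1 * 2 ^ l * nn k J (Lv k ξ b' l) β τ ≤ M1 * 2 ^ l * 3 ^ J := by gcongr
          linarith
        rw [hemp, measure_empty]
        exact bot_le
  -- the sum over `l`
  have hsub : Lv k (Fin.snoc ξ β : Fin (t + 1) → ℝ) (Fin.snoc b' J : Fin (t + 1) → ℕ) l' ⊆
      ⋃ l ∈ range (2 * t * J + 1), {τ : ℝ | (2 : ℝ) ^ l' ≤ M1 * 2 ^ l * nn k J (Lv k ξ b' l) β τ} := by
    intro τ hτ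
    obtain ⟨l, hlr, h9⟩ := level_mem (M := 2 * t * J) hS hsize hτ
    rw [Set.mem_iUnion₂]
    refine ⟨l, hlr, ?_⟩
    show (2 : ℝ) ^ l' ≤ M1 * 2 ^ l * nn k J (Lv k ξ b' l) β τ
    rw [hM1def]
    push_cast at h9 ⊢
    exact h9
  have hexp : ((3 : ℝ) ^ J) ^ (((t + 1 : ℕ) : ℝ) - k) = 3 ^ J * ((3 : ℝ) ^ J) ^ ((t : ℝ) - k) := by
    have h4 : (((t + 1 : ℕ) : ℝ) - k) = 1 + ((t : ℝ) - k) := by push_cast; ring
    rw [h4, Real.rpow_add hZ0, Real.rpow_one]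
  calc volume (Lv k (Fin.snoc ξ β : Fin (t + 1) → ℝ) (Fin.snoc b' J : Fin (t + 1) → ℕ) l')
      ≤ volume (⋃ l ∈ range (2 * t * J + 1),
          {τ : ℝ | (2 : ℝ) ^ l' ≤ M1 * 2 ^ l * nn k J (Lv k ξ b' l) β τ}) := measure_mono hsub
    _ ≤ ∑ l ∈ range (2 * t * J + 1),
          volume {τ : ℝ | (2 : ℝ) ^ l' ≤ M1 * 2 ^ l * nn k J (Lv k ξ b' l) β τ} :=
        measure_biUnion_finset_le _ _
    _ ≤ ∑ _l ∈ range (2 * t * J + 1),
          ENNReal.ofReal ((Cj + 2 * CP * Ci ^ 2) * M1 ^ (2 ^ (i + 1)) * ((3 : ℝ) ^ J) ^ (δ' / 2) *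
            ((3 : ℝ) ^ J) ^ k * (3 ^ J * ((3 : ℝ) ^ J) ^ ((t : ℝ) - k) / 2 ^ l') ^ (2 ^ (i + 1))) :=
        Finset.sum_le_sum hone
    _ = ENNReal.ofReal (M1 * ((Cj + 2 * CP * Ci ^ 2) * M1 ^ (2 ^ (i + 1)) * ((3 : ℝ) ^ J) ^ (δ' / 2) *
            ((3 : ℝ) ^ J) ^ k * (3 ^ J * ((3 : ℝ) ^ J) ^ ((t : ℝ) - k) / 2 ^ l') ^ (2 ^ (i + 1)))) := by
        rw [Finset.sum_const, Finset.card_range, nsmul_eq_mul, ENNReal.ofReal_mul hM10.le, hM1def,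
          ENNReal.ofReal_natCast]
    _ ≤ _ := by
        apply ENNReal.ofReal_le_ofReal
        rw [hexp]
        have hW : (0 : ℝ) < (3 : ℝ) ^ J * ((3 : ℝ) ^ J) ^ ((t : ℝ) - k) / 2 ^ l' := by positivity
        generalize (3 : ℝ) ^ J * ((3 : ℝ) ^ J) ^ ((t : ℝ) - k) / 2 ^ l' = V at *
        calc M1 * ((Cj + 2 * CP * Ci ^ 2) * M1 ^ (2 ^ (i + 1)) * ((3 : ℝ) ^ J) ^ (δ' / 2) *
              ((3 : ℝ) ^ J) ^ k * V ^ (2 ^ (i + 1)))
            = M1 ^ (2 ^ (i + 1) + 1) * ((Cj + 2 * CP * Ci ^ 2) * ((3 : ℝ) ^ J) ^ (δ' / 2) *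
              ((3 : ℝ) ^ J) ^ k * V ^ (2 ^ (i + 1))) := by ring
          _ ≤ (D * ((3 : ℝ) ^ J) ^ (δ' / 2)) * ((Cj + 2 * CP * Ci ^ 2) * ((3 : ℝ) ^ J) ^ (δ' / 2) *
              ((3 : ℝ) ^ J) ^ k * V ^ (2 ^ (i + 1))) := by
              apply mul_le_mul_of_nonneg_right hDJ (by positivity)
          _ = (D * (Cj + 2 * CP * Ci ^ 2)) * (((3 : ℝ) ^ J) ^ (δ' / 2) * ((3 : ℝ) ^ J) ^ (δ' / 2) *
              ((3 : ℝ) ^ J) ^ k) * V ^ (2 ^ (i + 1)) := by ring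
          _ ≤ C * (((3 : ℝ) ^ J) ^ (δ' / 2) * ((3 : ℝ) ^ J) ^ (δ' / 2) * ((3 : ℝ) ^ J) ^ k) *
              V ^ (2 ^ (i + 1)) := by
              have h10 : D * (Cj + 2 * CP * (Ci : ℝ) ^ 2) ≤ C := by
                refine le_trans ?_ hC
                have : 0 ≤ D * (Ci : ℝ) := by positivity
                linarith
              gcongr
          _ = C * ((3 : ℝ) ^ J) ^ ((k : ℝ) + δ') * V ^ (2 ^ (i + 1)) := by
              congr 2
              rw [← Real.rpow_natCast ((3 : ℝ) ^ J) k, ← Real.rpow_add hZ0, ← Real.rpow_add hZ0]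
              congr 1
              ring

end Pool.Agent.K7.H91.AF
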